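import Mathlib

/-!
# The loneliness gap can drop under translation of the speed set

For every `a ≥ 1` and every set `W` of `n ≥ 1` speeds the set `V = 2 a W - a` consists of odd
multiples of `a`, so that its loneliness gap is `1 / 2`, the largest possible value, whereas
`a + V = 2 a W` has the same loneliness gap as `W`. For `W = {1, ..., n}` the latter is
`1 / (n + 1)`. A second family has `gcd(V) = gcd(a + V) = 1` and `κ(V) = 1 / 3`: it is
`V = {1, 2, a + 3}` for `a` not divisible by `3`, for example `{1, 2, 4}` and `{2, 3, 5}`.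
-/

set_option autoImplicit false

namespace Pool.Agent.Results.MP_64d5df_nt.GapDropsUnderTranslation

/-- The loneliness gap of a finite set of speeds: the supremum over all real `t` of the minimum over
`v ∈ V` of the distance of `t v` to the nearest integer. -/
noncomputable def κ (V : Finset ℕ) : ℝ :=
  ⨆ t : ℝ, ⨅ v : V, |t * (v : ℕ) - round (t * (v : ℕ))|

/-- The translate `a + V`. -/
def translate (a : ℕ) (V : Finset ℕ) : Finset ℕ := V.image (fun v => a + v)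

/-- `V` is a set of `n` positive integers. -/
def IsSpeeds (n : ℕ) (V : Finset ℕ) : Prop := V.card = n ∧ ∀ v ∈ V, 0 < v

theorem bdd (V : Finset ℕ) (t : ℝ) :
    BddBelow (Set.range fun v : V => |t * (v : ℕ) - round (t * (v : ℕ))|) :=
  ⟨0, by rintro _ ⟨v, rfl⟩; exact abs_nonneg _⟩

theorem inf_le {V : Finset ℕ} (t : ℝ) {v : ℕ} (hv : v ∈ V) :
    (⨅ v : V, |t * (v : ℕ) - round (t * (v : ℕ))|) ≤ |t * v - round (t * v)| :=
  ciInf_le (bdd V t) ⟨v, hv⟩

theorem bddA {V : Finset ℕ} (hV : V.Nonempty) :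
    BddAbove (Set.range fun t : ℝ => ⨅ v : V, |t * (v : ℕ) - round (t * (v : ℕ))|) := by
  obtain ⟨v, hv⟩ := hV
  refine ⟨1 / 2, ?_⟩
  rintro _ ⟨t, rfl⟩
  exact (inf_le t hv).trans (abs_sub_round _)

theorem le_κ {V : Finset ℕ} (hV : V.Nonempty) {c : ℝ} (t : ℝ)
    (h : ∀ v ∈ V, c ≤ |t * v - round (t * v)|) : c ≤ κ V := by
  refine le_trans ?_ (le_ciSup (bddA hV) t)
  have : Nonempty V := hV.to_subtype
  exact le_ciInf fun v => h v v.2

theorem κ_le {V : Finset ℕ} {c : ℝ} (h : ∀ t : ℝ, ∃ v ∈ V, |t * v - round (t * v)| ≤ c) :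
    κ V ≤ c := by
  refine ciSup_le fun t => ?_
  obtain ⟨v, hv, hc⟩ := h t
  exact (inf_le t hv).trans hc

theorem le_nd {c y : ℝ} (n : ℤ) (h1 : c ≤ y - n) (h2 : y - n ≤ 1 - c) : c ≤ |y - round y| := by
  rcases le_or_gt (round y) n with h | h
  · have : ((round y : ℤ) : ℝ) ≤ n := by exact_mod_cast h
    exact le_trans (by linarith) (le_abs_self _)
  · have : (n : ℝ) + 1 ≤ ((round y : ℤ) : ℝ) := by exact_mod_cast h
    exact le_trans (by linarith) (neg_le_abs _)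

/-- The loneliness gap of `c W` is at most that of `W`. -/
theorem κ_mul_le {W V : Finset ℕ} (hW : W.Nonempty) (c : ℕ) (h : ∀ w ∈ W, c * w ∈ V) :
    κ V ≤ κ W := by
  refine ciSup_le fun t => ?_
  refine le_κ hW (t * c) fun w hw => ?_
  have := inf_le t (h w hw)
  have e : t * ((c * w : ℕ) : ℝ) = t * c * w := by push_cast; ring
  rwa [e] at this

/-- The loneliness gap of `W` is at most that of `c W`. -/
theorem κ_le_mul {W V : Finset ℕ} (hV : V.Nonempty) (c : ℕ) (hc : 0 < c)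
    (h : ∀ v ∈ V, ∃ w ∈ W, v = c * w) : κ W ≤ κ V := by
  refine ciSup_le fun t => ?_
  refine le_κ hV (t / c) fun v hv => ?_
  obtain ⟨w, hw, rfl⟩ := h v hv
  have := inf_le t hw
  have hc' : (c : ℝ) ≠ 0 := by exact_mod_cast hc.ne'
  have e : t / c * ((c * w : ℕ) : ℝ) = t * w := by
    push_cast
    field_simp
  rwa [e]

/-- The loneliness gap is at most `1 / 2`. -/
theorem κ_le_half {V : Finset ℕ} (hV : V.Nonempty) : κ V ≤ 1 / 2 := by
  obtain ⟨v, hv⟩ := hV
  exact κ_le fun t => ⟨v, hv, abs_sub_round _⟩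

/-- The set `2 a W - a`. -/
def lift (a : ℕ) (W : Finset ℕ) : Finset ℕ := W.image (fun w => a * (2 * w - 1))

theorem lift_speeds {n a : ℕ} (ha : 1 ≤ a) {W : Finset ℕ} (hW : IsSpeeds n W) :
    IsSpeeds n (lift a W) := by
  have hinj : Set.InjOn (fun w => a * (2 * w - 1)) (W : Set ℕ) := by
    intro x hx y hy hxy
    have h1 := hW.2 x (by simpa using hx)
    have h2 := hW.2 y (by simpa using hy)
    have h3 : 2 * x - 1 = 2 * y - 1 := Nat.eq_of_mul_eq_mul_left (by omega) hxy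
    omega
  refine ⟨?_, fun v hv => ?_⟩
  · rw [lift, Finset.card_image_of_injOn hinj, hW.1]
  · obtain ⟨w, hw, rfl⟩ := Finset.mem_image.1 hv
    have := hW.2 w hw
    exact Nat.mul_pos (by omega) (by omega)

theorem κ_lift {n a : ℕ} (hn : 1 ≤ n) (ha : 1 ≤ a) {W : Finset ℕ} (hW : IsSpeeds n W) :
    κ (lift a W) = 1 / 2 := by
  have hWne : W.Nonempty := by
    rw [← Finset.card_pos, hW.1]; omega
  have hVne : (lift a W).Nonempty := hWne.image _
  have haR : (0 : ℝ) < a := by exact_mod_cast (show 0 < a by omega)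
  refine le_antisymm (κ_le_half hVne) ?_
  refine le_κ hVne (1 / (2 * a)) fun v hv => ?_
  obtain ⟨w, hw, rfl⟩ := Finset.mem_image.1 hv
  have hw1 := hW.2 w hw
  have e : 1 / (2 * (a : ℝ)) * ((a * (2 * w - 1) : ℕ) : ℝ) = ((w : ℤ) - 1 : ℤ) + 1 / 2 := by
    rw [Nat.cast_mul, Nat.cast_sub (by omega)]
    push_cast
    field_simp
    ring
  rw [e]
  refine le_nd ((w : ℤ) - 1) ?_ ?_ <;> linarith

theorem mem_translate_lift {a : ℕ} {n : ℕ} {W : Finset ℕ} (hW : IsSpeeds n W) (v : ℕ) :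
    v ∈ translate a (lift a W) ↔ ∃ w ∈ W, v = 2 * a * w := by
  unfold translate lift
  rw [Finset.image_image, Finset.mem_image]
  constructor
  · rintro ⟨w, hw, rfl⟩
    refine ⟨w, hw, ?_⟩
    have hw1 := hW.2 w hw
    obtain ⟨u, rfl⟩ : ∃ u, w = u + 1 := ⟨w - 1, by omega⟩
    have : 2 * (u + 1) - 1 = 2 * u + 1 := by omega
    rw [Function.comp_apply, this]; ring
  · rintro ⟨w, hw, rfl⟩
    refine ⟨w, hw, ?_⟩
    have hw1 := hW.2 w hw
    obtain ⟨u, rfl⟩ : ∃ u, w = u + 1 := ⟨w - 1, by omega⟩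
    have : 2 * (u + 1) - 1 = 2 * u + 1 := by omega
    rw [Function.comp_apply, this]; ring

theorem κ_translate_lift {n a : ℕ} (hn : 1 ≤ n) (ha : 1 ≤ a) {W : Finset ℕ}
    (hW : IsSpeeds n W) : κ (translate a (lift a W)) = κ W := by
  have hWne : W.Nonempty := by
    rw [← Finset.card_pos, hW.1]; omega
  have hne : (translate a (lift a W)).Nonempty := (hWne.image _).image _
  apply le_antisymm
  · exact κ_mul_le hWne (2 * a) fun w hw => (mem_translate_lift hW _).2 ⟨w, hw, rfl⟩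
  · exact κ_le_mul hne (2 * a) (by omega) fun v hv => (mem_translate_lift hW v).1 hv

/-- The loneliness gap of `{1, ..., n}`. -/
theorem κ_Icc {n : ℕ} (hn : 1 ≤ n) : κ (Finset.Icc 1 n) = 1 / ((n : ℝ) + 1) := by
  have hne : (Finset.Icc 1 n).Nonempty := ⟨1, by simp [hn]⟩
  have hnR : (0 : ℝ) < (n : ℝ) + 1 := by positivity
  apply le_antisymm
  · refine κ_le fun t => ?_
    obtain ⟨k, hk0, hkn, hk⟩ := Real.exists_nat_abs_mul_sub_round_le t (show 0 < n by omega)
    refine ⟨k, Finset.mem_Icc.2 ⟨hk0, hkn⟩, ?_⟩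
    rwa [mul_comm]
  · refine le_κ hne (1 / ((n : ℝ) + 1)) fun v hv => ?_
    rw [Finset.mem_Icc] at hv
    have hv1 : (1 : ℝ) ≤ v := by exact_mod_cast hv.1
    have hvn : (v : ℝ) ≤ n := by exact_mod_cast hv.2
    refine le_nd 0 ?_ ?_
    · rw [Int.cast_zero, sub_zero]
      exact le_mul_of_one_le_right (by positivity) hv1
    · rw [Int.cast_zero, sub_zero, le_sub_iff_add_le, ← mul_add_one]
      rw [one_div, inv_mul_le_iff₀ hnR]
      linarith

/-- The loneliness gap of `{a + 1, a + 2, 2 a + 3}`. -/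
theorem κ_cop {a : ℕ} (ha : 1 ≤ a) :
    κ {a + 1, a + 2, 2 * a + 3} = ((a : ℝ) + 1) / (3 * a + 4) := by
  have haR : (1 : ℝ) ≤ a := by exact_mod_cast ha
  have hd : (0 : ℝ) < 3 * a + 4 := by positivity
  obtain ⟨c, hc⟩ : ∃ c : ℝ, c = ((a : ℝ) + 1) / (3 * a + 4) := ⟨_, rfl⟩
  have hcd : c * (3 * a + 4) = a + 1 := by rw [hc]; field_simp
  rw [← hc]
  apply le_antisymm
  · refine κ_le fun t => ?_
    by_contra hcon
    push Not at hcon
    have h1 := hcon (a + 1) (by simp)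
    have h2 := hcon (a + 2) (by simp)
    have h3 := hcon (2 * a + 3) (by simp)
    obtain ⟨x, hx⟩ : ∃ x : ℝ, x = t * ((a + 1 : ℕ) : ℝ) := ⟨_, rfl⟩
    obtain ⟨z, hz⟩ : ∃ z : ℝ, z = t * ((a + 2 : ℕ) : ℝ) := ⟨_, rfl⟩
    have hxz : t * ((2 * a + 3 : ℕ) : ℝ) = x + z := by
      rw [hx, hz]; push_cast; ring
    have hrel : ((a : ℝ) + 2) * x = (a + 1) * z := by
      rw [hx, hz]; push_cast; ring
    rw [← hx, abs_sub_round_eq_min, lt_min_iff] at h1
    rw [← hz, abs_sub_round_eq_min, lt_min_iff] at h2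
    rw [hxz, abs_sub_round_eq_min, lt_min_iff] at h3
    obtain ⟨p, hp⟩ : ∃ p : ℝ, p = Int.fract x := ⟨_, rfl⟩
    obtain ⟨q, hq⟩ : ∃ q : ℝ, q = Int.fract z := ⟨_, rfl⟩
    have hxp : x = ⌊x⌋ + p := by rw [hp]; exact (Int.floor_add_fract x).symm
    have hzq : z = ⌊z⌋ + q := by rw [hq]; exact (Int.floor_add_fract z).symm
    rw [← hp] at h1
    rw [← hq] at h2
    have hp1 : p < 1 := by rw [hp]; exact Int.fract_lt_one x
    have hq1 : q < 1 := by rw [hq]; exact Int.fract_lt_one z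
    have hp0 : 0 ≤ p := by rw [hp]; exact Int.fract_nonneg x
    have hq0 : 0 ≤ q := by rw [hq]; exact Int.fract_nonneg z
    have hN : ((a : ℝ) + 2) * p - (a + 1) * q =
        (((a : ℤ) + 1) * ⌊z⌋ - ((a : ℤ) + 2) * ⌊x⌋ : ℤ) := by
      push_cast
      have : ((a : ℝ) + 2) * (⌊x⌋ + p) = (a + 1) * (⌊z⌋ + q) := by
        rw [← hxp, ← hzq]; exact hrel
      linarith
    have key : ∀ p' q' : ℝ, c < p' → c < q' → p' + q' < 1 - c →
        0 < ((a : ℝ) + 2) * p' - (a + 1) * q' ∧ ((a : ℝ) + 2) * p' - (a + 1) * q' < 1 := by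
      intro p' q' g1 g2 g3
      have e1 : 0 < ((a : ℝ) + 2) * (p' - c) := mul_pos (by linarith) (by linarith)
      have e2 : 0 < ((a : ℝ) + 1) * (1 - 2 * c - q') := mul_pos (by linarith) (by linarith)
      have e3 : 0 < ((a : ℝ) + 2) * (1 - 2 * c - p') := mul_pos (by linarith) (by linarith)
      have e4 : 0 < ((a : ℝ) + 1) * (q' - c) := mul_pos (by linarith) (by linarith)
      have e5 : 0 < c := by rw [hc]; positivity
      constructor <;> nlinarith
    rcases lt_or_ge (p + q) 1 with h | h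
    · have hs : Int.fract (x + z) = p + q := by
        rw [Int.fract_eq_iff]
        refine ⟨by linarith, h, ⌊x⌋ + ⌊z⌋, ?_⟩
        push_cast
        linarith
      rw [hs] at h3
      obtain ⟨k1, k2⟩ := key p q h1.1 h2.1 (by linarith [h3.2])
      rw [hN] at k1 k2
      have k1' : (0 : ℤ) < ((a : ℤ) + 1) * ⌊z⌋ - ((a : ℤ) + 2) * ⌊x⌋ := by exact_mod_cast k1
      have k2' : ((a : ℤ) + 1) * ⌊z⌋ - ((a : ℤ) + 2) * ⌊x⌋ < 1 := by exact_mod_cast k2
      omega
    · have hs : Int.fract (x + z) = p + q - 1 := by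
        rw [Int.fract_eq_iff]
        refine ⟨by linarith, by linarith, ⌊x⌋ + ⌊z⌋ + 1, ?_⟩
        push_cast
        linarith
      rw [hs] at h3
      obtain ⟨k1, k2⟩ := key (1 - p) (1 - q) h1.2 h2.2 (by linarith [h3.1])
      have hN' : ((a : ℝ) + 2) * (1 - p) - (a + 1) * (1 - q) =
          ((1 - (((a : ℤ) + 1) * ⌊z⌋ - ((a : ℤ) + 2) * ⌊x⌋) : ℤ) : ℝ) := by
        rw [Int.cast_sub, ← hN, Int.cast_one]
        ring
      rw [hN'] at k1 k2
      have k1' : (0 : ℤ) < 1 - (((a : ℤ) + 1) * ⌊z⌋ - ((a : ℤ) + 2) * ⌊x⌋) := by exact_mod_cast k1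
      have k2' : 1 - (((a : ℤ) + 1) * ⌊z⌋ - ((a : ℤ) + 2) * ⌊x⌋) < 1 := by exact_mod_cast k2
      omega
  · refine le_κ ⟨a + 1, by simp⟩ (1 / (3 * a + 4)) fun v hv => ?_
    have hv2 : (a : ℝ) + 1 ≤ v ∧ (v : ℝ) ≤ 2 * a + 3 := by
      simp only [Finset.mem_insert, Finset.mem_singleton] at hv
      constructor
      · have : a + 1 ≤ v := by omega
        exact_mod_cast this
      · have : v ≤ 2 * a + 3 := by omega
        exact_mod_cast this
    refine le_nd 0 ?_ ?_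
    · rw [Int.cast_zero, sub_zero, hc, one_div, ← div_eq_inv_mul]
      exact (div_le_div_iff_of_pos_right hd).2 hv2.1
    · rw [Int.cast_zero, sub_zero, hc, one_div, ← div_eq_inv_mul, le_sub_iff_add_le, ← add_div,
        div_le_one hd]
      linarith [hv2.2]

/-- The loneliness gap of `{1, 2, a + 3}` if `3` does not divide `a`. -/
theorem κ_three {a : ℕ} (h3 : ¬ 3 ∣ a) : κ {1, 2, a + 3} = 1 / 3 := by
  apply le_antisymm
  · refine κ_le fun t => ?_
    obtain ⟨k, hk0, hkn, hk⟩ := Real.exists_nat_abs_mul_sub_round_le t (show 0 < 2 by norm_num)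
    refine ⟨k, ?_, ?_⟩
    · simp only [Finset.mem_insert, Finset.mem_singleton]
      omega
    · rw [mul_comm]
      refine hk.trans (le_of_eq ?_)
      norm_num
  · refine le_κ ⟨1, by simp⟩ (1 / 3) fun v hv => ?_
    have hv3 : ¬ 3 ∣ v := by
      simp only [Finset.mem_insert, Finset.mem_singleton] at hv
      omega
    obtain ⟨k, r, hvk, hr⟩ : ∃ k r : ℕ, v = 3 * k + r ∧ (r = 1 ∨ r = 2) :=
      ⟨v / 3, v % 3, by omega, by omega⟩
    have hvR : (v : ℝ) = 3 * k + r := by exact_mod_cast hvk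
    refine le_nd (k : ℤ) ?_ ?_
    · rcases hr with rfl | rfl <;> rw [hvR] <;> push_cast <;> linarith
    · rcases hr with rfl | rfl <;> rw [hvR] <;> push_cast <;> linarith

/-- **Coprime examples.** -/
theorem coprime_examples (a : ℕ) (ha : 1 ≤ a) (h3 : ¬ 3 ∣ a) :
    ∃ V : Finset ℕ, IsSpeeds 3 V ∧ V.gcd id = 1 ∧ (translate a V).gcd id = 1 ∧ κ V = 1 / 3 ∧
      κ (translate a V) = ((a : ℝ) + 1) / (3 * a + 4) ∧ κ (translate a V) < κ V := by
  have ht : translate a {1, 2, a + 3} = {a + 1, a + 2, 2 * a + 3} := by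
    unfold translate
    rw [Finset.image_insert, Finset.image_insert, Finset.image_singleton]
    congr 3
    omega
  refine ⟨{1, 2, a + 3}, ⟨?_, ?_⟩, ?_, ?_, κ_three h3, ?_, ?_⟩
  · rw [Finset.card_insert_of_notMem, Finset.card_pair (by omega)]
    simp only [Finset.mem_insert, Finset.mem_singleton]
    omega
  · intro v hv
    simp only [Finset.mem_insert, Finset.mem_singleton] at hv
    omega
  · have h : Finset.gcd ({1, 2, a + 3} : Finset ℕ) id ∣ 1 := Finset.gcd_dvd (f := id) (by simp)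
    exact Nat.dvd_one.1 h
  · rw [ht]
    have h1 : Finset.gcd ({a + 1, a + 2, 2 * a + 3} : Finset ℕ) id ∣ a + 1 :=
      Finset.gcd_dvd (f := id) (by simp)
    have h2 : Finset.gcd ({a + 1, a + 2, 2 * a + 3} : Finset ℕ) id ∣ a + 2 :=
      Finset.gcd_dvd (f := id) (by simp)
    exact Nat.dvd_one.1 (by simpa using Nat.dvd_sub h2 h1)
  · rw [ht]; exact κ_cop ha
  · rw [ht, κ_cop ha, κ_three h3, div_lt_div_iff₀ (by positivity) (by norm_num)]
    linarith

/-- **Theorem.** The inequality `κ(a + V) ≥ κ(V)` fails for every `n ≥ 2` and every `a ≥ 1`: there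
is a set `V` of `n` speeds whose loneliness gap is `1 / 2`, while that of `a + V` is
`1 / (n + 1)`. More generally, for every set `W` of `n ≥ 1` speeds there is a set `V` of `n` speeds
with `κ(V) = 1 / 2` and `κ(a + V) = κ(W)`. For every `a ≥ 1` which is not divisible by `3` there is
also a set `V` of three speeds, namely `{1, 2, a + 3}`, such that `V` and `a + V` have greatest common
divisor one, `κ(V) = 1 / 3` and `κ(a + V) = (a + 1) / (3 a + 4) < 1 / 3`. -/
theorem result :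
    (¬ ∀ n : ℕ, 1 ≤ n → ∀ V : Finset ℕ, IsSpeeds n V → ∀ a : ℕ, 1 ≤ a →
      κ V ≤ κ (translate a V)) ∧
    (∀ n a : ℕ, 2 ≤ n → 1 ≤ a → ∃ V : Finset ℕ, IsSpeeds n V ∧ κ V = 1 / 2 ∧
      κ (translate a V) = 1 / ((n : ℝ) + 1) ∧ κ (translate a V) < κ V) ∧
    (∀ n a : ℕ, 1 ≤ n → 1 ≤ a → ∀ W : Finset ℕ, IsSpeeds n W →
      ∃ V : Finset ℕ, IsSpeeds n V ∧ κ V = 1 / 2 ∧ κ (translate a V) = κ W) ∧
    (∀ a : ℕ, 1 ≤ a → ¬ 3 ∣ a →
      ∃ V : Finset ℕ, IsSpeeds 3 V ∧ V.gcd id = 1 ∧ (translate a V).gcd id = 1 ∧ κ V = 1 / 3 ∧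
        κ (translate a V) = ((a : ℝ) + 1) / (3 * a + 4) ∧ κ (translate a V) < κ V) := by
  have h3 : ∀ n a : ℕ, 1 ≤ n → 1 ≤ a → ∀ W : Finset ℕ, IsSpeeds n W →
      ∃ V : Finset ℕ, IsSpeeds n V ∧ κ V = 1 / 2 ∧ κ (translate a V) = κ W :=
    fun n a hn ha W hW => ⟨lift a W, lift_speeds ha hW, κ_lift hn ha hW, κ_translate_lift hn ha hW⟩
  have h2 : ∀ n a : ℕ, 2 ≤ n → 1 ≤ a → ∃ V : Finset ℕ, IsSpeeds n V ∧ κ V = 1 / 2 ∧
      κ (translate a V) = 1 / ((n : ℝ) + 1) ∧ κ (translate a V) < κ V := by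
    intro n a hn ha
    obtain ⟨V, hV, h1, h2⟩ := h3 n a (by omega) ha (Finset.Icc 1 n)
      ⟨by simp, fun v hv => by rw [Finset.mem_Icc] at hv; omega⟩
    rw [κ_Icc (by omega)] at h2
    refine ⟨V, hV, h1, h2, ?_⟩
    rw [h1, h2]
    have : (2 : ℝ) ≤ n := by exact_mod_cast hn
    exact one_div_lt_one_div_of_lt (by norm_num) (by linarith)
  refine ⟨fun h => ?_, h2, h3, coprime_examples⟩
  obtain ⟨V, hV, -, -, h4⟩ := h2 2 1 le_rfl le_rfl
  exact absurd (h 2 (by norm_num) V hV 1 le_rfl) (not_le.2 h4)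

end Pool.Agent.Results.MP_64d5df_nt.GapDropsUnderTranslation
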